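import Mathlib
import Pool.Agent.X98.DDE.Sys

/-!
# MP_c1c035_an, Q1: the continuation of a hyperbolic periodic orbit of a delay equation with
analytic right-hand side need not be analytic in the parameter
-/

open Set Filter Topology

namespace Pool.Agent.Results.MP_c1c035_an.NonAnalytic

/-! ## General definitions -/

/-- Right-hand sides `f (x(t), x(t - r₁), …, x(t - r_M)) α`: the argument number `0` is the undelayed
one. -/
abbrev Rhs (N M : ℕ) := (Fin (M + 1) → Fin N → ℝ) → ℝ → Fin N → ℝ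

/-- `(x(t), x(t - r₁), …, x(t - r_M))` (`r₀ = 0`). -/
def hist {N M : ℕ} (r : Fin (M + 1) → ℝ) (x : ℝ → Fin N → ℝ) (t : ℝ) : Fin (M + 1) → Fin N → ℝ :=
  fun k => x (t - r k)

/-- `x` solves `x'(t) = f(x(t), x(t - r₁), …, x(t - r_M), α)` on `ℝ`. -/
def IsSol {N M : ℕ} (f : Rhs N M) (r : Fin (M + 1) → ℝ) (α : ℝ) (x : ℝ → Fin N → ℝ) : Prop :=
  ∀ t, HasDerivAt x (f (hist r x t) α) t

/-- `p > 0` is the minimal period of `x` (in particular `x` is not constant). -/
def MinPeriod {N : ℕ} (x : ℝ → Fin N → ℝ) (p : ℝ) : Prop :=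
  0 < p ∧ (∀ t, x (t + p) = x t) ∧ ∀ q, 0 < q → (∀ t, x (t + q) = x t) → p ≤ q

/-- The `(i, j)` entry of the matrix `D_k f (X, α)`. -/
noncomputable def Dmat {N M : ℕ} (f : Rhs N M) (α : ℝ) (X : Fin (M + 1) → Fin N → ℝ) (k : Fin (M + 1))
    (i j : Fin N) : ℝ :=
  fderiv ℝ (fun X => f X α) X (Pi.single k (Pi.single j 1)) i

/-- `y` solves the variational equation `y'(t) = ∑ₖ D_k f (x₀(t), …, x₀(t - r_M), α) y(t - r_k)` on
`[0, p]`. -/
def VarSol {N M : ℕ} (f : Rhs N M) (r : Fin (M + 1) → ℝ) (α : ℝ) (x₀ : ℝ → Fin N → ℝ) (p : ℝ)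
    (y : ℝ → Fin N → ℂ) : Prop :=
  ∀ t ∈ Icc 0 p, ∀ i, HasDerivWithinAt (fun s => y s i)
    (∑ k, ∑ j, (Dmat f α (hist r x₀ t) k i j : ℂ) * y (t - r k) j) (Icc 0 p) t

/-- `ψ = U φ`, where `U` is the (complexified) monodromy operator of `x₀` on `C([-R, 0])`: `ψ` is the
segment at time `p` of the solution of the variational equation with initial segment `φ`. -/
def Mono {N M : ℕ} (f : Rhs N M) (r : Fin (M + 1) → ℝ) (R α : ℝ) (x₀ : ℝ → Fin N → ℝ) (p : ℝ)
    (φ ψ : ℝ → Fin N → ℂ) : Prop :=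
  ∃ y : ℝ → Fin N → ℂ, ContinuousOn y (Icc (-R) p) ∧ (∀ s ∈ Icc (-R) 0, y s = φ s) ∧
    VarSol f r α x₀ p y ∧ ∀ s ∈ Icc (-R) 0, y (p + s) = ψ s

/-- The derivative of `x₀` as a complex-valued function. -/
noncomputable def dot {N : ℕ} (x₀ : ℝ → Fin N → ℝ) (t : ℝ) (i : Fin N) : ℂ := (deriv x₀ t i : ℂ)

/-- Hyperbolicity of the `p`-periodic solution `x₀`: `1` is a multiplier with eigenfunction `x₀'`, it
is algebraically simple (`(U - 1)² φ = 0` only for multiples `φ` of `x₀'`), and a multiplier `μ` with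
`|μ| = 1` is equal to `1`. -/
structure Hyperbolic {N M : ℕ} (f : Rhs N M) (r : Fin (M + 1) → ℝ) (R α : ℝ) (x₀ : ℝ → Fin N → ℝ)
    (p : ℝ) : Prop where
  trivial_multiplier : Mono f r R α x₀ p (dot x₀) (dot x₀) ∧ ∃ s ∈ Icc (-R) 0, dot x₀ s ≠ 0
  simple : ∀ φ ψ : ℝ → Fin N → ℂ, Mono f r R α x₀ p φ ψ →
    Mono f r R α x₀ p (fun s => ψ s - φ s) (fun s => ψ s - φ s) →
    ∃ c : ℂ, ∀ s ∈ Icc (-R) 0, φ s = c • dot x₀ s
  nontrivial_multiplier : ∀ (μ : ℂ) (φ : ℝ → Fin N → ℂ), Mono f r R α x₀ p φ (fun s => μ • φ s) →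
    (∃ s ∈ Icc (-R) 0, φ s ≠ 0) → ‖μ‖ = 1 → μ = 1

/-- `(X, P)` is the continuation of the `p₀`-periodic solution `x₀` at `α₀`, with the section condition
`⟨x(0, α) - x₀(0), x₀'(0)⟩ = 0`. Here `X α t` is `x(t, α)`. -/
structure Continuation {N M : ℕ} (f : Rhs N M) (r : Fin (M + 1) → ℝ) (α₀ : ℝ) (x₀ : ℝ → Fin N → ℝ)
    (p₀ : ℝ) (X : ℝ → ℝ → Fin N → ℝ) (P : ℝ → ℝ) : Prop where
  base : X α₀ = x₀
  base_period : P α₀ = p₀
  close : ∀ t, ContinuousAt (fun q : ℝ × ℝ => X q.1 q.2) (α₀, t)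
  close_period : ContinuousAt P α₀
  sol : ∀ᶠ α in 𝓝 α₀, IsSol f r α (X α) ∧ 0 < P α ∧ ∀ t, X α (t + P α) = X α t
  section_condition : ∀ᶠ α in 𝓝 α₀, ∑ i, (X α 0 i - x₀ 0 i) * deriv x₀ 0 i = 0

/-! ## The example -/

open Pool.Agent.X98.DDE

/-- abbreviation: the variational equation of the example -/
lemma varSol_iff (p : ℝ) (y : ℝ → Fin 6 → ℂ) :
    VarSol (N := 6) (M := 1) f r 1 (Xs 1) p y ↔ ∀ t ∈ Icc 0 p, ∀ i, HasDerivWithinAt (fun s => y s i)
      (df (fun k => Xs 1 (t - r k)) 1 (fun k => y (t - r k)) i) (Icc 0 p) t := by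
  unfold VarSol Dmat hist
  refine forall_congr' fun t => forall_congr' fun _ => forall_congr' fun i => ?_
  rw [← sum_Dmat]

/-- the linearised equations along the unit circle -/
lemma var_eqs {p : ℝ} {y : ℝ → Fin 6 → ℂ} (hy : VarSol (N := 6) (M := 1) f r 1 (Xs 1) p y) {t : ℝ}
    (ht : t ∈ Icc 0 p) :
    HasDerivWithinAt (fun s => y s 0) (-y t 1 - 2 * Real.cos t * (Real.cos t * y t 0 + Real.sin t * y t 1)) (Icc 0 p) t ∧
    HasDerivWithinAt (fun s => y s 1) (y t 0 - 2 * Real.sin t * (Real.cos t * y t 0 + Real.sin t * y t 1)) (Icc 0 p) t := by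
  have hcs : ((Real.cos t : ℝ) : ℂ) ^ 2 + ((Real.sin t : ℝ) : ℂ) ^ 2 = 1 := by
    have := Real.cos_sq_add_sin_sq t
    exact_mod_cast this
  rw [varSol_iff] at hy
  constructor
  · refine (hy t ht 0).congr_deriv ?_
    simp only [df, drhs, r, Xs]
    simp
    push_cast at hcs
    linear_combination (-y t 0) * hcs
  · refine (hy t ht 1).congr_deriv ?_
    simp only [df, drhs, r, Xs]
    simp
    push_cast at hcs
    linear_combination (-y t 1) * hcs

/-- a quasi-periodic solution of the variational equation with vanishing first two components is zero -/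
lemma core {μ : ℂ} (hμ : ‖μ‖ = 1) {y : ℝ → Fin 6 → ℂ}
    (hy : VarSol (N := 6) (M := 1) f r 1 (Xs 1) (2 * Real.pi) y)
    (hq : ∀ s ∈ Icc (-(2 * Real.pi)) 0, y (2 * Real.pi + s) = μ • y s)
    (h0 : ∀ t ∈ Icc 0 (2 * Real.pi), y t 0 = 0 ∧ y t 1 = 0) :
    ∀ t ∈ Icc 0 (2 * Real.pi), y t = 0 := by
  have hπ := Real.pi_pos
  have hμ0 : μ ≠ 0 := by
    rintro rfl
    simp at hμ
  have hback : ∀ t ∈ Icc 0 (2 * Real.pi), ∀ i, y (t - 2 * Real.pi) i = μ⁻¹ * y t i := by
    intro t ht i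
    have h1 := congrFun (hq (t - 2 * Real.pi) ⟨by linarith [ht.1], by linarith [ht.2]⟩) i
    rw [show 2 * Real.pi + (t - 2 * Real.pi) = t by ring] at h1
    rw [h1, Pi.smul_apply, smul_eq_mul, inv_mul_cancel_left₀ hμ0]
  rw [varSol_iff] at hy
  have e2 : ∀ t ∈ Icc 0 (2 * Real.pi), HasDerivWithinAt (fun s => y s 2) (y t 4) (Icc 0 (2 * Real.pi)) t := by
    intro t ht
    refine (hy t ht 2).congr_deriv ?_
    obtain ⟨a0, a1⟩ := h0 t ht
    simp [df, drhs, r, Xs, a0, a1]
  have e3 : ∀ t ∈ Icc 0 (2 * Real.pi), HasDerivWithinAt (fun s => y s 3) (y t 5) (Icc 0 (2 * Real.pi)) t := by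
    intro t ht
    refine (hy t ht 3).congr_deriv ?_
    obtain ⟨a0, a1⟩ := h0 t ht
    simp [df, drhs, r, Xs, a0, a1]
  have e4 : ∀ t ∈ Icc 0 (2 * Real.pi), HasDerivWithinAt (fun s => y s 4)
      (2 * y t 2 - μ⁻¹ * (Real.cos t * y t 2 - Real.sin t * y t 3)) (Icc 0 (2 * Real.pi)) t := by
    intro t ht
    refine (hy t ht 4).congr_deriv ?_
    obtain ⟨a0, a1⟩ := h0 t ht
    have b0 := hback t ht 0
    have b1 := hback t ht 1
    have b2 := hback t ht 2
    have b3 := hback t ht 3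
    rw [a0, mul_zero] at b0
    rw [a1, mul_zero] at b1
    simp [df, drhs, r, Xs, a0, a1, b0, b1, b2, b3]
    ring
  have e5 : ∀ t ∈ Icc 0 (2 * Real.pi), HasDerivWithinAt (fun s => y s 5)
      (2 * y t 3 - μ⁻¹ * (Real.cos t * y t 3 + Real.sin t * y t 2)) (Icc 0 (2 * Real.pi)) t := by
    intro t ht
    refine (hy t ht 5).congr_deriv ?_
    obtain ⟨a0, a1⟩ := h0 t ht
    have b0 := hback t ht 0
    have b1 := hback t ht 1
    have b2 := hback t ht 2
    have b3 := hback t ht 3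
    rw [a0, mul_zero] at b0
    rw [a1, mul_zero] at b1
    simp [df, drhs, r, Xs, a0, a1, b0, b1, b2, b3]
    ring
  have hend : ∀ i, y (2 * Real.pi) i = μ * y 0 i := by
    intro i
    have h1 := congrFun (hq 0 ⟨by linarith, le_rfl⟩) i
    simpa using h1
  have key : ∀ σ : ℝ, σ ^ 2 = 1 → ∀ t ∈ Icc 0 (2 * Real.pi),
      y t 2 + σ * Complex.I * y t 3 = 0 ∧ y t 4 + σ * Complex.I * y t 5 = 0 := by
    intro σ hσ
    refine quasi (e := fun t => μ⁻¹ * (Real.cos t + σ * Complex.I * Real.sin t)) (p := 2 * Real.pi)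
      (by positivity) hμ ?_ ?_ ?_ ?_ ?_
    · intro t ht
      exact (e2 t ht).fun_add ((e3 t ht).const_mul _)
    · intro t ht
      refine ((e4 t ht).fun_add ((e5 t ht).const_mul _)).congr_deriv ?_
      have hσ' : (σ : ℂ) ^ 2 = 1 := by exact_mod_cast hσ
      linear_combination (μ⁻¹ * Real.sin t * y t 3) * ((σ : ℂ) ^ 2 * Complex.I_sq - hσ')
    · intro t
      have : ‖(Real.cos t + σ * Complex.I * Real.sin t : ℂ)‖ = 1 := by
        have h1 : (Real.cos t + σ * Complex.I * Real.sin t : ℂ) = ⟨Real.cos t, σ * Real.sin t⟩ := by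
          apply Complex.ext <;> simp [-Complex.ofReal_cos, -Complex.ofReal_sin]
        have h2 : ‖(⟨Real.cos t, σ * Real.sin t⟩ : ℂ)‖ ^ 2 = 1 := by
          rw [← Complex.normSq_eq_norm_sq, Complex.normSq_mk]
          have := Real.cos_sq_add_sin_sq t
          linear_combination this + Real.sin t ^ 2 * hσ
        rw [h1]
        nlinarith [norm_nonneg (⟨Real.cos t, σ * Real.sin t⟩ : ℂ)]
      rw [norm_mul, this, norm_inv, hμ]
      simp
    · rw [hend 2, hend 3]; ring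
    · rw [hend 4, hend 5]; ring
  intro t ht
  obtain ⟨p1, p2⟩ := key 1 (by norm_num) t ht
  obtain ⟨m1, m2⟩ := key (-1) (by norm_num) t ht
  have a2 : y t 2 = 0 := by
    push_cast at p1 m1
    linear_combination (1 / 2) * p1 + (1 / 2) * m1
  have a4 : y t 4 = 0 := by
    push_cast at p2 m2
    linear_combination (1 / 2) * p2 + (1 / 2) * m2
  have a3 : y t 3 = 0 := by
    push_cast at p1
    rw [a2] at p1
    have : Complex.I * y t 3 = 0 := by linear_combination p1
    exact (mul_eq_zero.mp this).resolve_left Complex.I_ne_zero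
  have a5 : y t 5 = 0 := by
    push_cast at p2
    rw [a4] at p2
    have : Complex.I * y t 5 = 0 := by linear_combination p2
    exact (mul_eq_zero.mp this).resolve_left Complex.I_ne_zero
  obtain ⟨a0, a1⟩ := h0 t ht
  funext i
  fin_cases i
  · exact a0
  · exact a1
  · exact a2
  · exact a3
  · exact a4
  · exact a5

/-- the derivative of a solution solves the variational equation -/
lemma varSol_dot {p : ℝ} : VarSol (N := 6) (M := 1) f r 1 (Xs 1) p (dot (Xs 1)) := by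
  intro t _ i
  have hd : ∀ t, deriv (Xs 1) t = f (hist (M := 1) r (Xs 1) t) 1 := fun t => (Xs_sol 1 t).deriv
  have h1 : HasDerivAt (fun t => hist (M := 1) r (Xs 1) t) (fun k => deriv (Xs 1) (t - r k)) t := by
    rw [hasDerivAt_pi]
    intro k
    have h2 : HasDerivAt (Xs 1) (deriv (Xs 1) (t - r k)) (t - r k) := (Xs_sol 1 (t - r k)).differentiableAt.hasDerivAt
    exact h2.comp_sub_const t (r k)
  have h2 := ((f_diff 1 (hist (M := 1) r (Xs 1) t)).hasFDerivAt.comp_hasDerivAt t h1)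
  have h3 : HasDerivAt (fun t => deriv (Xs 1) t i)
      (fderiv ℝ (fun X => f X 1) (hist (M := 1) r (Xs 1) t) (fun k => deriv (Xs 1) (t - r k)) i) t := by
    have h4 := (hasDerivAt_pi.mp h2) i
    have h5 : (fun t => deriv (Xs 1) t i) = fun t => ((fun X => f X 1) ∘ fun t => hist (M := 1) r (Xs 1) t) t i := by
      funext t
      rw [hd]; rfl
    rw [h5]; exact h4
  have h6 := h3.ofReal_comp.hasDerivWithinAt (s := Icc 0 p)
  refine h6.congr_deriv ?_
  rw [fderiv_f]
  have h7 := sum_Dmat_real 1 (hist (M := 1) r (Xs 1) t) (fun k => deriv (Xs 1) (t - r k)) i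
  rw [← h7]
  unfold Dmat dot
  push_cast
  rfl

lemma deriv_Xs (t : ℝ) (i : Fin 6) : deriv (Xs 1) t i = f (fun k => Xs 1 (t - r k)) 1 i := by
  rw [(Xs_sol 1 t).deriv]

lemma dot_zero (t : ℝ) : dot (Xs 1) t 0 = -Real.sin t ∧ dot (Xs 1) t 1 = Real.cos t := by
  have hcs := Real.cos_sq_add_sin_sq t
  unfold dot
  rw [deriv_Xs, deriv_Xs]
  constructor
  · have : f (fun k => Xs 1 (t - r k)) 1 0 = -Real.sin t := by
      simp [f, rhs, r, Xs, g1]
      exact Or.inr (by linear_combination -hcs)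
    rw [this]; push_cast; ring
  · have : f (fun k => Xs 1 (t - r k)) 1 1 = Real.cos t := by
      simp [f, rhs, r, Xs, g2]
      exact Or.inr (by linear_combination -hcs)
    rw [this]

lemma Xs_periodic {α : ℝ} (hα : 0 < α) (t : ℝ) : Xs α (t + 2 * Real.pi / α) = Xs α t := by
  have e1 : α * (t + 2 * Real.pi / α) = α * t + 2 * Real.pi := by field_simp
  have e2 : Complex.exp (Complex.I * ((2 * Real.pi : ℝ) : ℂ)) = 1 := by
    have := Complex.exp_two_pi_mul_I
    rw [← this]; congr 1; push_cast; ring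
  unfold Xs
  rw [e1, Real.cos_add_two_pi, Real.sin_add_two_pi, W_periodic 0 _ _ e2, W_periodic 1 _ _ e2]

lemma dot_periodic (t : ℝ) : dot (Xs 1) (2 * Real.pi + t) = dot (Xs 1) t := by
  funext i
  unfold dot
  have h : Xs 1 = fun t => Xs 1 (2 * Real.pi + t) := by
    funext t
    have := Xs_periodic one_pos t
    rw [div_one, add_comm] at this
    exact this.symm
  have h2 : deriv (Xs 1) (2 * Real.pi + t) = deriv (Xs 1) t := by
    conv_rhs => rw [h]
    rw [deriv_comp_const_add]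
  rw [h2]

lemma dot_continuous : Continuous (dot (Xs 1)) := by
  refine continuous_pi fun i => ?_
  unfold dot
  refine Complex.continuous_ofReal.comp ?_
  have h0 : Continuous (Xs 1) := continuous_iff_continuousAt.mpr fun t => (Xs_sol 1 t).continuousAt
  have h1 : (fun t => deriv (Xs 1) t i) = fun t => f (fun k => Xs 1 (t - r k)) 1 i := funext fun t => deriv_Xs t i
  rw [h1]
  have h2 : Continuous fun X : Fin 2 → Fin 6 → ℝ => f X 1 :=
    continuous_iff_continuousAt.mpr fun X => (f_diff 1 X).continuousAt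
  have h3 : Continuous fun t : ℝ => (fun k : Fin 2 => Xs 1 (t - r k)) := continuous_pi fun k =>
    h0.comp (continuous_id.sub continuous_const)
  exact (continuous_apply i).comp (h2.comp h3)

lemma varSol_sub {p : ℝ} {y z : ℝ → Fin 6 → ℂ} (hy : VarSol (N := 6) (M := 1) f r 1 (Xs 1) p y)
    (hz : VarSol (N := 6) (M := 1) f r 1 (Xs 1) p z) (c : ℂ) :
    VarSol (N := 6) (M := 1) f r 1 (Xs 1) p (fun s => y s - c • z s) := by
  intro t ht i
  refine ((hy t ht i).fun_sub ((hz t ht i).const_mul c)).congr_deriv ?_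
  rw [Finset.mul_sum, ← Finset.sum_sub_distrib]
  refine Finset.sum_congr rfl fun k _ => ?_
  rw [Finset.mul_sum, ← Finset.sum_sub_distrib]
  refine Finset.sum_congr rfl fun j _ => ?_
  change _ = (Dmat (N := 6) (M := 1) f 1 (hist (M := 1) r (Xs 1) t) k i j : ℂ) * (y (t - r k) j - c * z (t - r k) j)
  ring

/-- the first two components along a period -/
lemma zpart {y : ℝ → Fin 6 → ℂ} (hy : VarSol (N := 6) (M := 1) f r 1 (Xs 1) (2 * Real.pi) y) {t : ℝ}
    (ht : t ∈ Icc 0 (2 * Real.pi)) :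
    Real.cos t * y t 0 + Real.sin t * y t 1 = Real.exp (-2 * t) * y 0 0 ∧
    Real.cos t * y t 1 - Real.sin t * y t 0 = y 0 1 :=
  lin_oscillator (y := fun t => y t 0) (z := fun t => y t 1) (fun _ ht => (var_eqs hy ht).1)
    (fun _ ht => (var_eqs hy ht).2) ht

lemma zpart_end {y : ℝ → Fin 6 → ℂ} (hy : VarSol (N := 6) (M := 1) f r 1 (Xs 1) (2 * Real.pi) y) :
    y (2 * Real.pi) 0 = Real.exp (-2 * (2 * Real.pi)) * y 0 0 ∧ y (2 * Real.pi) 1 = y 0 1 := by
  have h := zpart hy (right_mem_Icc.mpr (by positivity))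
  simp only [Real.cos_two_pi, Real.sin_two_pi] at h
  simpa using h

lemma zpart_quasi {μ : ℂ} (hμ : ‖μ‖ = 1) {y : ℝ → Fin 6 → ℂ}
    (hy : VarSol (N := 6) (M := 1) f r 1 (Xs 1) (2 * Real.pi) y)
    (hq : ∀ s ∈ Icc (-(2 * Real.pi)) 0, y (2 * Real.pi + s) = μ • y s) :
    (μ - 1) * y 0 1 = 0 ∧ ∀ t ∈ Icc 0 (2 * Real.pi), y t 0 = -Real.sin t * y 0 1 ∧ y t 1 = Real.cos t * y 0 1 := by
  have hπ := Real.pi_pos
  have hend : ∀ i, y (2 * Real.pi) i = μ * y 0 i := by
    intro i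
    have h1 := congrFun (hq 0 ⟨by linarith, le_rfl⟩) i
    simpa using h1
  obtain ⟨h1, h2⟩ := zpart_end hy
  rw [hend] at h1 h2
  have h0 : y 0 0 = 0 := by
    have h3 : (μ - Real.exp (-2 * (2 * Real.pi))) * y 0 0 = 0 := by linear_combination h1
    refine (mul_eq_zero.mp h3).resolve_left fun h4 => ?_
    have h5 : μ = ((Real.exp (-2 * (2 * Real.pi)) : ℝ) : ℂ) := by linear_combination h4
    rw [h5, Complex.norm_real, Real.norm_of_nonneg (Real.exp_pos _).le] at hμ
    have := Real.exp_lt_one_iff.mpr (show -2 * (2 * Real.pi) < 0 by linarith)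
    linarith
  refine ⟨by linear_combination h2, fun t ht => ?_⟩
  obtain ⟨h3, h4⟩ := zpart hy ht
  rw [h0, mul_zero] at h3
  have hcs : ((Real.cos t : ℝ) : ℂ) ^ 2 + ((Real.sin t : ℝ) : ℂ) ^ 2 = 1 := by
    have := Real.cos_sq_add_sin_sq t
    exact_mod_cast this
  constructor
  · linear_combination (Real.cos t : ℂ) * h3 - (Real.sin t : ℂ) * h4 - y t 0 * hcs
  · linear_combination (Real.sin t : ℂ) * h3 + (Real.cos t : ℂ) * h4 - y t 1 * hcs

theorem hyperbolic : Hyperbolic (N := 6) (M := 1) f r (2 * Real.pi) 1 (Xs 1) (2 * Real.pi) := by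
  have hπ := Real.pi_pos
  refine ⟨⟨⟨dot (Xs 1), dot_continuous.continuousOn, fun s _ => rfl, varSol_dot, fun s _ => dot_periodic s⟩,
    0, ⟨by linarith, le_rfl⟩, fun h => ?_⟩, ?_, ?_⟩
  · have := (dot_zero 0).2
    rw [h] at this
    simp at this
  · rintro φ ψ ⟨y, -, hy1, hy2, hy3⟩ ⟨z, -, hz1, hz2, hz3⟩
    have hzq : ∀ s ∈ Icc (-(2 * Real.pi)) 0, z (2 * Real.pi + s) = (1 : ℂ) • z s := fun s hs => by
      rw [one_smul, hz3 s hs, hz1 s hs]
    have h00 : (0 : ℝ) ∈ Icc (-(2 * Real.pi)) 0 := ⟨by linarith, le_rfl⟩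
    have hz0 : z 0 1 = 0 := by
      have h1 := congrFun (hz1 0 h00) 1
      have h2 := congrFun (hy1 0 h00) 1
      have h3 := congrFun (hy3 0 h00) 1
      rw [add_zero, (zpart_end hy2).2] at h3
      rw [h1]
      change ψ 0 1 - φ 0 1 = 0
      rw [← h2, ← h3, sub_self]
    have hz4 := core norm_one hz2 hzq fun t ht => by
      obtain ⟨h1, h2⟩ := (zpart_quasi norm_one hz2 hzq).2 t ht
      rw [hz0, mul_zero] at h1 h2
      exact ⟨h1, h2⟩
    have hφψ : ∀ s ∈ Icc (-(2 * Real.pi)) 0, ψ s = φ s := fun s hs => by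
      have h1 := hz3 s hs
      rw [hz4 _ ⟨by linarith [hs.1], by linarith [hs.2]⟩] at h1
      exact sub_eq_zero.mp h1.symm
    have hyq : ∀ s ∈ Icc (-(2 * Real.pi)) 0, y (2 * Real.pi + s) = (1 : ℂ) • y s := fun s hs => by
      rw [one_smul, hy3 s hs, hφψ s hs, hy1 s hs]
    obtain ⟨-, hyz⟩ := zpart_quasi norm_one hy2 hyq
    have hw := core (y := fun s => y s - y 0 1 • dot (Xs 1) s) norm_one (varSol_sub hy2 varSol_dot (y 0 1))
      (fun s hs => by
        rw [hyq s hs, dot_periodic, one_smul, one_smul])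
      (fun t ht => by
        obtain ⟨h1, h2⟩ := hyz t ht
        obtain ⟨h3, h4⟩ := dot_zero t
        simp only [Pi.sub_apply, Pi.smul_apply, smul_eq_mul]
        rw [h1, h2, h3, h4]
        constructor <;> ring)
    refine ⟨y 0 1, fun s hs => ?_⟩
    have h1 := hw (2 * Real.pi + s) ⟨by linarith [hs.1], by linarith [hs.2]⟩
    rw [hyq s hs, dot_periodic, one_smul] at h1
    rw [← hy1 s hs]
    exact sub_eq_zero.mp h1
  · rintro μ φ ⟨y, -, hy1, hy2, hy3⟩ ⟨s0, hs0, hne⟩ hμ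
    have hyq : ∀ s ∈ Icc (-(2 * Real.pi)) 0, y (2 * Real.pi + s) = μ • y s := fun s hs => by
      rw [hy3 s hs, hy1 s hs]
    by_contra hμ1
    obtain ⟨h1, h2⟩ := zpart_quasi hμ hy2 hyq
    have h3 : y 0 1 = 0 := (mul_eq_zero.mp h1).resolve_left (sub_ne_zero.mpr hμ1)
    have h4 := core hμ hy2 hyq fun t ht => by
      obtain ⟨h5, h6⟩ := h2 t ht
      rw [h3, mul_zero] at h5 h6
      exact ⟨h5, h6⟩
    apply hne
    have h5 := hy3 s0 hs0
    rw [h4 _ ⟨by linarith [hs0.1], by linarith [hs0.2]⟩] at h5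
    have hμ0 : μ ≠ 0 := by
      rintro rfl
      simp at hμ
    exact (smul_eq_zero.mp h5.symm).resolve_left hμ0

/-! ### Existence and uniqueness of the continuation -/

lemma W_continuous (k : ℕ) : Continuous fun q : ℝ × ℝ => W k q.1 q.2 := by
  unfold W
  refine continuous_tsum (fun n => ?_) (summable_pow k) (fun n q => ?_)
  · fun_prop
  · rw [norm_mul, norm_coef]
    have : ‖Complex.exp (Complex.I * ((n * q.1 + (-(q.2 * lam n)) : ℝ) : ℂ))‖ = 1 := by
      rw [mul_comm]; exact Complex.norm_exp_ofReal_mul_I _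
    rw [this, mul_one]

lemma Xs_continuous : Continuous fun q : ℝ × ℝ => Xs q.1 q.2 := by
  have h : ∀ k, Continuous fun q : ℝ × ℝ => W k (q.1 * q.2) q.1 := fun k =>
    (W_continuous k).comp (by fun_prop : Continuous fun q : ℝ × ℝ => (q.1 * q.2, q.1))
  have h0 := h 0
  have h1 := h 1
  refine continuous_pi fun i => ?_
  fin_cases i <;> simp [Xs] <;> fun_prop

lemma deriv_zero (i : Fin 6) : deriv (Xs 1) 0 i = if i = 1 then 1 else 0 := by
  have hd := (hasDerivAt_pi.mp (Xs_sol 1 0).differentiableAt.hasDerivAt) i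
  have hc := cos_deriv 1 0
  have hs := sin_deriv 1 0
  fin_cases i
  · refine hd.unique (hc.congr_deriv ?_)
    simp
  · refine hd.unique (hs.congr_deriv ?_)
    simp
  · refine hd.unique (((W_re_deriv 0 1 0).fun_sub ((hc.const_mul c1).fun_sub (hs.const_mul c2))).congr_deriv ?_)
    simp [c2]
  · refine hd.unique (((W_im_deriv 0 1 0).fun_sub ((hs.const_mul c1).fun_add (hc.const_mul c2))).congr_deriv ?_)
    simp [c1]
  · refine hd.unique (((W_re_deriv 1 1 0).fun_sub ((hc.const_mul d1).fun_sub (hs.const_mul d2))).congr_deriv ?_)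
    simp [d2]
  · refine hd.unique (((W_im_deriv 1 1 0).fun_sub ((hs.const_mul d1).fun_add (hc.const_mul d2))).congr_deriv ?_)
    simp [d1]

theorem continuation : Continuation (N := 6) (M := 1) f r 1 (Xs 1) (2 * Real.pi) Xs (fun α => 2 * Real.pi / α) where
  base := rfl
  base_period := by simp
  close := fun t => Xs_continuous.continuousAt
  close_period := by
    have : ContinuousAt (fun α : ℝ => 2 * Real.pi / α) 1 := by
      refine ContinuousAt.div continuousAt_const continuousAt_id one_ne_zero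
    exact this
  sol := by
    filter_upwards [lt_mem_nhds (show (0 : ℝ) < 1 by norm_num)] with α hα
    exact ⟨Xs_sol α, by positivity, Xs_periodic hα⟩
  section_condition := by
    refine Eventually.of_forall fun α => ?_
    have h : ∀ i, (Xs α 0 i - Xs 1 0 i) * deriv (Xs 1) 0 i = 0 := by
      intro i
      rw [deriv_zero]
      split_ifs with h
      · subst h; simp [Xs]
      · simp
    simp [h]

/-- a periodic solution near `Xs 1` which satisfies the section condition is `Xs α` -/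
lemma unique_orbit {α p : ℝ} (hα : 0 < α) (hp : 0 < p) {x : ℝ → Fin 6 → ℝ}
    (hx : IsSol (N := 6) (M := 1) f r α x) (hper : ∀ t, x (t + p) = x t) (h0 : 0 < x 0 0) (h1 : x 0 1 = 0) :
    x 0 2 = (W 0 0 α).re - c1 ∧ x 0 3 = (W 0 0 α).im - c2 := by
  have hxi : ∀ t i, HasDerivAt (fun t => x t i) (f (fun k => x (t - r k)) α i) t := fun t i =>
    hasDerivAt_pi.mp (hx t) i
  have e0 : ∀ t, HasDerivAt (fun t => x t 0) (α * (-x t 1 + x t 0 * (1 - x t 0 ^ 2 - x t 1 ^ 2))) t := fun t =>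
    (hxi t 0).congr_deriv (by simp [f, rhs, r, g1])
  have e1 : ∀ t, HasDerivAt (fun t => x t 1) (α * (x t 0 + x t 1 * (1 - x t 0 ^ 2 - x t 1 ^ 2))) t := fun t =>
    (hxi t 1).congr_deriv (by simp [f, rhs, r, g2])
  have hosc : ∀ t, x t 0 = Real.cos (α * t) ∧ x t 1 = Real.sin (α * t) := fun t =>
    oscillator hα hp e0 e1 (fun t => by rw [hper]) (fun t => by rw [hper]) h0 h1 t
  -- the difference of the remaining components
  set y : ℝ → ℂ := fun t => ((x t 2 + (c1 * x t 0 - c2 * x t 1) : ℝ) : ℂ) +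
    ((x t 3 + (c1 * x t 1 + c2 * x t 0) : ℝ) : ℂ) * Complex.I - W 0 (α * t) α with hy
  set v : ℝ → ℂ := fun t => ((x t 4 + (d1 * x t 0 - d2 * x t 1) : ℝ) : ℂ) +
    ((x t 5 + (d1 * x t 1 + d2 * x t 0) : ℝ) : ℂ) * Complex.I - W 1 (α * t) α with hv
  have hyd : ∀ t, HasDerivAt y (α * v t) t := by
    intro t
    have a1 := ((hxi t 2).fun_add (((hxi t 0).const_mul c1).fun_sub ((hxi t 1).const_mul c2))).ofReal_comp
    have a2 := ((hxi t 3).fun_add (((hxi t 1).const_mul c1).fun_add ((hxi t 0).const_mul c2))).ofReal_comp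
    refine ((a1.fun_add (a2.mul_const Complex.I)).fun_sub (W_comp_deriv 0 α t)).congr_deriv ?_
    simp only [hv]
    simp [f, rhs, r]
    ring
  have hvd : ∀ t, HasDerivAt v (α * (2 * y t - Complex.exp (Complex.I * (α * t : ℝ)) * y (t - 2 * Real.pi))) t := by
    intro t
    have a1 := ((hxi t 4).fun_add (((hxi t 0).const_mul d1).fun_sub ((hxi t 1).const_mul d2))).ofReal_comp
    have a2 := ((hxi t 5).fun_add (((hxi t 1).const_mul d1).fun_add ((hxi t 0).const_mul d2))).ofReal_comp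
    refine ((a1.fun_add (a2.mul_const Complex.I)).fun_sub (W_comp_deriv 1 α t)).congr_deriv ?_
    have hW := W_eq (α * t) α
    rw [show α * t - 2 * Real.pi * α = α * (t - 2 * Real.pi) by ring] at hW
    have hE : Complex.exp (Complex.I * (α * t : ℝ)) = (x t 0 : ℂ) + (x t 1 : ℂ) * Complex.I := by
      rw [mul_comm, Complex.exp_mul_I, (hosc t).1, (hosc t).2, Complex.ofReal_cos, Complex.ofReal_sin]
    rw [show (1 + 1 : ℕ) = 2 from rfl, hW, hE]
    simp only [hy]
    simp [f, rhs, r]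
    linear_combination ((α : ℂ) * x t 1 * (c1 * x (t - 2 * Real.pi) 1 + c2 * x (t - 2 * Real.pi) 0 +
      x (t - 2 * Real.pi) 3)) * Complex.I_sq
  have hexp : Complex.exp (Complex.I * ((α * p : ℝ) : ℂ)) = 1 := by
    have h3 := hosc p
    have h4 := hper 0
    rw [zero_add] at h4
    rw [h4, h1] at h3
    have h5 := (hosc 0).1
    rw [mul_zero, Real.cos_zero] at h5
    rw [h5] at h3
    rw [mul_comm, Complex.exp_mul_I, ← Complex.ofReal_cos, ← Complex.ofReal_sin, ← h3.1, ← h3.2]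
    simp
  have hyper : ∀ t, y (t + p) = y t := fun t => by
    simp only [hy]
    rw [hper, mul_add, W_periodic 0 _ _ hexp]
  have hzero := max_principle (R := 2 * Real.pi) hα hp hyd hvd (fun t => by
    rw [mul_comm, Complex.norm_exp_ofReal_mul_I]) hyper 0
  have h5 := (hosc 0).1
  rw [mul_zero, Real.cos_zero] at h5
  simp only [hy, mul_zero, h5, h1] at hzero
  have hre := congrArg Complex.re hzero
  have him := congrArg Complex.im hzero
  simp at hre him
  constructor <;> linarith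

lemma minPeriod : MinPeriod (Xs 1) (2 * Real.pi) := by
  refine ⟨by positivity, fun t => ?_, fun q hq h => ?_⟩
  · have := Xs_periodic one_pos t
    rwa [div_one] at this
  · have h1 := congrFun (h 0) 0
    have h2 : Real.cos q = 1 := by simpa [Xs] using h1
    obtain ⟨n, hn⟩ := (Real.cos_eq_one_iff q).mp h2
    have h3 : (0 : ℝ) < n := by
      have : (0 : ℝ) < n * (2 * Real.pi) := by rw [hn]; exact hq
      exact (pos_iff_pos_of_mul_pos this).mpr (by positivity)
    have h4 : (1 : ℝ) ≤ n := by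
      have : (0 : ℤ) < n := by exact_mod_cast h3
      exact_mod_cast this
    rw [← hn]
    nlinarith [Real.pi_pos]

/-- **Theorem.** There are a real analytic `f`, constant delays and a hyperbolic periodic solution
`x₀` at `α₀` whose continuation exists and is never analytic: no continuation `x(t, α)` with the
section condition `⟨x(0, α) - x₀(0), x₀'(0)⟩ = 0` has `α ↦ x(0, α)` analytic at `α₀`. -/
theorem result : ∃ (N M : ℕ) (f : Rhs N M) (r : Fin (M + 1) → ℝ) (R α₀ : ℝ) (x₀ : ℝ → Fin N → ℝ) (p₀ : ℝ),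
    1 ≤ N ∧ 1 ≤ M ∧
    AnalyticOnNhd ℝ (fun q : (Fin (M + 1) → Fin N → ℝ) × ℝ => f q.1 q.2) univ ∧
    r 0 = 0 ∧ (∀ k, 0 ≤ r k) ∧ IsGreatest (range r) R ∧
    IsSol f r α₀ x₀ ∧ MinPeriod x₀ p₀ ∧ Hyperbolic f r R α₀ x₀ p₀ ∧
    (∃ X P, Continuation f r α₀ x₀ p₀ X P) ∧
    ∀ X P, Continuation f r α₀ x₀ p₀ X P → ¬ AnalyticAt ℝ (fun α => X α 0) α₀ := by
  have hπ := Real.pi_pos
  refine ⟨6, 1, f, r, 2 * Real.pi, 1, Xs 1, 2 * Real.pi, by norm_num, le_rfl, f_analytic, rfl, ?_, ?_,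
    Xs_sol 1, minPeriod, hyperbolic, ⟨Xs, _, continuation⟩, ?_⟩
  · intro k
    fin_cases k <;> simp [r] <;> positivity
  · constructor
    · exact ⟨1, by simp [r]⟩
    · rintro _ ⟨k, rfl⟩
      fin_cases k <;> simp [r] <;> positivity
  · intro X P hX hana
    have hlim : Tendsto (fun α => X α 0 0) (𝓝 1) (𝓝 1) := by
      have h1 : ContinuousAt (fun α : ℝ => X α 0) 1 := by
        have h2 : ContinuousAt (fun α : ℝ => (α, (0 : ℝ))) 1 := by fun_prop
        exact ContinuousAt.comp (f := fun α : ℝ => (α, (0 : ℝ))) (g := fun q : ℝ × ℝ => X q.1 q.2) (hX.close 0) h2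
      have h3 : Tendsto (fun α => X α 0 0) (𝓝 1) (𝓝 (X 1 0 0)) := ((continuous_apply 0).tendsto _).comp h1
      have h4 : X 1 0 0 = 1 := by rw [hX.base]; simp [Xs]
      rwa [h4] at h3
    have hev : ∀ᶠ α in 𝓝 (1 : ℝ), W 0 0 α = ((X α 0 2 + c1 : ℝ) : ℂ) + ((X α 0 3 + c2 : ℝ) : ℂ) * Complex.I := by
      filter_upwards [hlim.eventually (lt_mem_nhds (show (0 : ℝ) < 1 by norm_num)),
        lt_mem_nhds (show (0 : ℝ) < 1 by norm_num), hX.sol, hX.section_condition] with α h1 h2 h3 h4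
      have h5 : X α 0 1 = 0 := by
        rw [Finset.sum_eq_single (1 : Fin 6)] at h4
        · rw [deriv_zero, if_pos rfl, mul_one] at h4
          have : Xs 1 0 1 = 0 := by simp [Xs]
          rw [this, sub_zero] at h4
          exact h4
        · intro b _ hb
          rw [deriv_zero, if_neg hb, mul_zero]
        · simp
      obtain ⟨h6, h7⟩ := unique_orbit h2 h3.2.1 h3.1 h3.2.2 h1 h5
      apply Complex.ext
      · simp [h6]
      · simp [h7]
    have hcomp : ∀ i, AnalyticAt ℝ (fun α => X α 0 i) 1 := fun i => analyticAt_pi_iff.mp hana i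
    have hC : AnalyticAt ℝ (fun α => ((X α 0 2 + c1 : ℝ) : ℂ) + ((X α 0 3 + c2 : ℝ) : ℂ) * Complex.I) 1 := by
      have a1 : AnalyticAt ℝ (fun α => ((X α 0 2 + c1 : ℝ) : ℂ)) 1 :=
        (Complex.ofRealCLM.analyticAt _).comp ((hcomp 2).add analyticAt_const)
      have a2 : AnalyticAt ℝ (fun α => ((X α 0 3 + c2 : ℝ) : ℂ)) 1 :=
        (Complex.ofRealCLM.analyticAt _).comp ((hcomp 3).add analyticAt_const)
      exact a1.add (a2.mul analyticAt_const)
    refine not_analytic (hC.congr ?_)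
    filter_upwards [hev] with α hα
    exact hα.symm

end Pool.Agent.Results.MP_c1c035_an.NonAnalytic
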